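import Pool.Agent.helper68.QZ.Spec

/-!
# MP_5a4a8e_nt, row qz:WL
-/

set_option autoImplicit false

namespace Pool.Agent.QZ

open N1f72dd46 Filter MeasureTheory Complex Metric Pool.Agent.helper6.LD
open scoped ComplexConjugate

theorem WL (hLB : LB_stmt) (hPH : PH_stmt) (hWK : WK_stmt) (hPP : PP_stmt) (hAK : AK_stmt) :
    WL_stmt := by
  intro ω hω0 hω1 hHyp δ Lam hδ0 hδ1 hLam
  obtain ⟨K, hK0, hK⟩ := hLB ω hω0 hHyp δ hδ0
  obtain ⟨C1, hC10, hC1⟩ := hWK Lam δ hLam hδ0 hδ1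
  obtain ⟨C2, hC20, hC2⟩ := hPP δ hδ0 hδ1
  refine ⟨2 * C1 + 4 * C1 * K + C2, by positivity, ?_⟩
  intro k σ t s hσ2 hσL ht hts hs
  have htpos : (0 : ℝ) < t := by linarith
  have hπ := Real.pi_pos
  have hspos : 0 < s := lt_of_lt_of_le (by positivity) hts
  have hx1 : 1 ≤ t * s / (2 * Real.pi) := by
    rw [le_div_iff₀ (by positivity), one_mul]
    rw [div_le_iff₀ htpos] at hts
    linarith
  obtain ⟨m, hm⟩ : ∃ m : ℕ, m = ⌊t * s / (2 * Real.pi)⌋₊ := ⟨_, rfl⟩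
  have hm1 : 1 ≤ m := by
    rw [hm]
    exact Nat.le_floor (by exact_mod_cast hx1)
  have hm1' : (1 : ℝ) ≤ m := by exact_mod_cast hm1
  have hmle : (m : ℝ) ≤ t * s / (2 * Real.pi) := by
    rw [hm]
    exact Nat.floor_le (by positivity)
  have hmge : t * s / (2 * Real.pi) / 2 ≤ (m : ℝ) := by
    have h1 := Nat.lt_floor_add_one (t * s / (2 * Real.pi))
    rw [← hm] at h1
    rcases le_total (t * s / (2 * Real.pi)) 2 with h2 | h2
    · linarith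
    · linarith
  obtain ⟨s', hs'⟩ : ∃ s' : ℝ, s' = 2 * Real.pi * m / t := ⟨_, rfl⟩
  have hs'le : s' ≤ s := by
    rw [hs', div_le_iff₀ htpos]
    rw [le_div_iff₀ (by positivity)] at hmle
    linarith
  have hs'ge : s / 2 ≤ s' := by
    rw [hs', le_div_iff₀ htpos]
    rw [div_div, div_le_iff₀ (by positivity)] at hmge
    linarith
  have hs'pos : 0 < s' := by linarith
  obtain ⟨hgood, hint, hPh⟩ := hPH t m ht hm1 (by rw [← hs']; linarith)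
  rw [← hs'] at hint
  have hPh1 := hPh σ (by linarith)
  rw [← hs'] at hPh1
  have hmain := hC1 t (K * t) (ω + δ) σ t (ph t m) k ht hgood (by positivity) (by linarith) hσ2
    hσL (fun y hy => hK t y (ph t m) ht hy hgood)
  have hr1 : 0 ≤ ((σ - 1 - δ) ^ k)⁻¹ := inv_nonneg.2 (pow_nonneg (by linarith) k)
  have hr2 : 0 ≤ ((σ - (ω + δ)) ^ k)⁻¹ := inv_nonneg.2 (pow_nonneg (by linarith) k)
  have hr3 : 0 ≤ ((σ - 1 / 2 - δ) ^ k)⁻¹ := inv_nonneg.2 (pow_nonneg (by linarith) k)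
  have hpp := hC2 k σ t hσ2
  have hak := hAK k σ t (by linarith)
  have hak' : ‖ak k ((σ : ℂ) + t * I)‖ ≤
      ‖fp k ((σ : ℂ) + t * I)‖ + C2 * ((σ - 1 / 2 - δ) ^ k)⁻¹ := by
    rw [hak]
    have h1 := norm_le_norm_add_norm_sub' (∑' n : ℕ, (wt σ (k + 1) n : ℂ) * (n : ℂ) ^ (-(t * I)))
      (fp k ((σ : ℂ) + t * I))
    linarith
  have hsub : σ - ω - δ = σ - (ω + δ) := by ring
  rw [hsub]
  obtain ⟨r1, hr1d⟩ : ∃ x : ℝ, x = ((σ - 1 - δ) ^ k)⁻¹ := ⟨_, rfl⟩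
  obtain ⟨r2, hr2d⟩ : ∃ x : ℝ, x = ((σ - (ω + δ)) ^ k)⁻¹ := ⟨_, rfl⟩
  obtain ⟨r3, hr3d⟩ : ∃ x : ℝ, x = ((σ - 1 / 2 - δ) ^ k)⁻¹ := ⟨_, rfl⟩
  obtain ⟨F, hF⟩ : ∃ x : ℝ, x = ‖fp k ((σ : ℂ) + t * I)‖ := ⟨_, rfl⟩
  obtain ⟨P, hP⟩ : ∃ x : ℝ, x = ‖Ph ((σ : ℂ) + t * I) (ph t m)‖ := ⟨_, rfl⟩
  have hF0 : 0 ≤ F := by rw [hF]; exact norm_nonneg _
  rw [← hr1d, ← hr2d, ← hF, ← hP] at hmain
  rw [← hF, ← hr3d] at hak'
  rw [← hP] at hPh1
  rw [← hr1d, ← hr2d, ← hr3d]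
  rw [← hr1d] at hr1
  rw [← hr2d] at hr2
  rw [← hr3d] at hr3
  have h1 : F * (s' / 2) ≤ C1 * (s' ^ 2 * r1 + K * t * r2) := by
    calc F * (s' / 2) ≤ F * P := mul_le_mul_of_nonneg_left hPh1 hF0
      _ ≤ _ := hmain
      _ ≤ _ := by
        apply mul_le_mul_of_nonneg_left _ hC10.le
        have := mul_le_mul_of_nonneg_right hint hr1
        linarith
  have h2 : F ≤ 2 * C1 * (s' * r1 + K * t / s' * r2) := by
    have h3 : F * (s' / 2) ≤ 2 * C1 * (s' * r1 + K * t / s' * r2) * (s' / 2) := by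
      have h4 : 2 * C1 * (s' * r1 + K * t / s' * r2) * (s' / 2) =
          C1 * (s' ^ 2 * r1 + K * t * r2) := by
        field_simp
      rw [h4]
      exact h1
    exact le_of_mul_le_mul_right h3 (by linarith)
  have h3 : s' * r1 ≤ s * r1 := mul_le_mul_of_nonneg_right hs'le hr1
  have h4 : K * t / s' * r2 ≤ 2 * K * (t / s * r2) := by
    have h5 : K * t / s' ≤ 2 * K * (t / s) := by
      rw [div_le_iff₀ hs'pos]
      have h6 : 2 * K * (t / s) * s' = K * t * (2 * s' / s) := by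
        field_simp
      rw [h6]
      have h7 : 1 ≤ 2 * s' / s := by
        rw [le_div_iff₀ hspos]
        linarith
      have h8 : 0 ≤ K * t := by positivity
      nlinarith
    calc K * t / s' * r2 ≤ 2 * K * (t / s) * r2 := mul_le_mul_of_nonneg_right h5 hr2
      _ = _ := by ring
  have h5 : 0 ≤ s * r1 := mul_nonneg hspos.le hr1
  have h6 : 0 ≤ t / s * r2 := mul_nonneg (by positivity) hr2
  have h7 : F ≤ 2 * C1 * (s * r1 + 2 * K * (t / s * r2)) :=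
    h2.trans (mul_le_mul_of_nonneg_left (by linarith) (by positivity))
  clear hmain hPh1 h1 h2 h3 h4 hpp hak hint hgood hPh hC1 hC2 hK hLB hPH hWK hPP hAK
  obtain ⟨X, hX⟩ : ∃ x : ℝ, x = s * r1 := ⟨_, rfl⟩
  obtain ⟨Y, hY⟩ : ∃ x : ℝ, x = t / s * r2 := ⟨_, rfl⟩
  rw [← hX, ← hY] at h7 ⊢
  rw [← hX] at h5
  rw [← hY] at h6
  have e1 : 0 ≤ (4 * C1 * K + C2) * X := by positivity
  have e2 : 0 ≤ (2 * C1 + C2) * Y := by positivity
  have e3 : 0 ≤ (2 * C1 + 4 * C1 * K) * r3 := by positivity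
  have e4 : (2 * C1 + 4 * C1 * K + C2) * (X + Y + r3) = 2 * C1 * (X + 2 * K * Y) + C2 * r3 +
      ((4 * C1 * K + C2) * X + (2 * C1 + C2) * Y + (2 * C1 + 4 * C1 * K) * r3) := by ring
  rw [e4]
  linarith

end Pool.Agent.QZ
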